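import Pool.Agent.H1.LP.Stmt

/-!
# Linear and semidefinite programs chosen after the formula: the statement (MP_c62aed_lc)
-/

namespace Pool.Agent.H73.MX

open Pool.Agent.H1.LP (Clause viol)
open Filter Topology

/-- A relaxation of CNF-SAT on a cell of the cube by linear and semidefinite constraints.  It
consists of the set `{y : A y ≤ b and B0 + ∑ y k • B k` positive semidefinite`}`, given by `size`
linear inequalities and by symmetric matrices of order `ord`, in any dimension `dim`; a feasible
point `pt x` for every assignment `x` in the cell; and for every clause `C` an affine functional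
(its loss), which takes at the points `pt x` values in `[-1, 1]`, and values `≤ 0` if `x` satisfies
`C`.  The set does not depend on the formula. -/
structure MRelax (n : ℕ) where
  /-- the cell -/
  cell : Finset (Fin n → Bool)
  /-- the dimension -/
  dim : ℕ
  /-- the number of linear inequalities -/
  size : ℕ
  /-- the order of the matrices -/
  ord : ℕ
  /-- the matrix of the linear inequalities -/
  A : Fin size → Fin dim → ℝ
  /-- the right hand side of the linear inequalities -/
  b : Fin size → ℝ
  /-- the constant matrix -/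
  B0 : Matrix (Fin ord) (Fin ord) ℝ
  /-- the coefficient matrices -/
  B : Fin dim → Matrix (Fin ord) (Fin ord) ℝ
  /-- the feasible point of an assignment -/
  pt : (Fin n → Bool) → Fin dim → ℝ
  /-- the linear part of the loss of a clause -/
  w : Clause n → Fin dim → ℝ
  /-- the constant part of the loss of a clause -/
  w0 : Clause n → ℝ
  symm0 : B0.IsSymm
  symm : ∀ k, (B k).IsSymm
  feasL : ∀ x ∈ cell, ∀ i, ∑ k, A i k * pt x k ≤ b i
  feasS : ∀ x ∈ cell, (B0 + ∑ k, pt x k • B k).PosSemidef
  bdd : ∀ x ∈ cell, ∀ C, |∑ k, w C k * pt x k + w0 C| ≤ 1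
  sound : ∀ x ∈ cell, ∀ C : Clause n, C.Sat x → ∑ k, w C k * pt x k + w0 C ≤ 0

/-- the loss of the clause `C` at the point `y`. -/
noncomputable def MRelax.loss {n : ℕ} (P : MRelax n) (C : Clause n) (y : Fin P.dim → ℝ) : ℝ :=
  ∑ k, P.w C k * y k + P.w0 C

/-- The relaxation refutes the formula `phi` with margin `de`: the total loss is at least `de` at
every point which satisfies the constraints. -/
def MRelax.Refutes {n m : ℕ} (P : MRelax n) (phi : Fin m → Clause n) (de : ℝ) : Prop :=
  ∀ y : Fin P.dim → ℝ, (∀ i, ∑ k, P.A i k * y k ≤ P.b i) →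
    (P.B0 + ∑ k, y k • P.B k).PosSemidef → de ≤ ∑ i, P.loss (phi i) y

/-- Relaxations from the family `P` with together at most `S` linear inequalities and matrices of
total order at most `R` refute the formula `phi` with margin `de`: some of the cells are disjoint
and cover the cube, each of these cells is refuted, and the constraints of these relaxations have
the stated total size (counting one more inequality for each cell).  The choice may depend on
`phi`. -/
def MRefutedBy {n M m : ℕ} (P : Fin M → MRelax n) (phi : Fin m → Clause n) (de S R : ℝ) : Prop :=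
  ∃ J : Finset (Fin M), (∀ j ∈ J, ∀ j' ∈ J, j ≠ j' → Disjoint (P j).cell (P j').cell) ∧
    (∀ x, ∃ j ∈ J, x ∈ (P j).cell) ∧ (∀ j ∈ J, (P j).Refutes phi de) ∧
    ∑ j ∈ J, (((P j).size : ℝ) + 1) ≤ S ∧ ∑ j ∈ J, ((P j).ord : ℝ) ≤ R

open Classical in
/-- Programs with `2 ^ (c n)` linear inequalities and semidefinite constraints of total order
`2 ^ (d n)`, chosen after the formula from a family of total size `2 ^ (C n)`, do not refute
`k`-CNFs with `O(n)` clauses and with the gap `(1 - ε) / 2 ^ k`.  There are `K` and `γ > 0` such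
that for all large `n` there is a finite list of CNFs with `n` variables, at most `K n` clauses, all
of width exactly `k`, every assignment violating at least `(1 - ε) m / 2 ^ k` of the `m` clauses,
with the property: for every family `P` of relaxations on cells of the cube, of total size at most
`2 ^ (C n)`, at most a fraction `2 ^ (- γ n)` of the formulas of the list is refuted with margin
`2 ^ (- γ n)` by relaxations from `P` with together at most `2 ^ (c n)` linear inequalities and
total order at most `2 ^ (d n)`. -/
def HardX (k : ℕ) (ε c d C : ℝ) : Prop :=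
  ∃ (K : ℕ) (γ : ℝ), 0 < γ ∧ ∃ n₀ : ℕ, ∀ n : ℕ, n₀ ≤ n →
    ∃ (Y : ℕ) (m : Fin Y → ℕ) (phi : (a : Fin Y) → Fin (m a) → Clause n), 0 < Y ∧
      (∀ a, 1 ≤ m a ∧ m a ≤ K * n ∧
        (∀ i, (phi a i).card = k ∧ ((phi a i).image Prod.fst).card = k) ∧
        ∀ x, (1 - ε) * ((m a : ℝ) / 2 ^ k) ≤ (viol (phi a) x : ℝ)) ∧
      ∀ (M : ℕ) (P : Fin M → MRelax n),
        ∑ j, (((P j).size : ℝ) + (P j).ord + 1) ≤ (2 : ℝ) ^ (C * n) →
        ((Finset.univ.filter (fun a => MRefutedBy P (phi a) ((2 : ℝ) ^ (-(γ * n)))
          ((2 : ℝ) ^ (c * n)) ((2 : ℝ) ^ (d * n)))).card : ℝ) ≤ (2 : ℝ) ^ (-(γ * n)) * Y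

/-- ETH and SETH for linear and semidefinite programs with branch and bound: for every gap `ε > 0`
there are exponents `c k`, `d k`, `C k`, positive for all `k ≥ 3`, with `c k → 1`, `d k → 1 / 2` and
`C k → ∞`, such that programs with `2 ^ (c k n)` linear inequalities and semidefinite constraints
of total order `2 ^ (d k n)`, chosen after the formula from a family of total size `2 ^ (C k n)`,
do not refute `k`-CNFs with `n` variables and `O(n)` clauses, in which every assignment violates a
fraction at least `(1 - ε) / 2 ^ k` of the clauses. -/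
def StatementX : Prop :=
  ∀ ε : ℝ, 0 < ε → ∃ c d C : ℕ → ℝ, (∀ k, 3 ≤ k → 0 < c k ∧ 0 < d k ∧ c k ≤ C k ∧ d k ≤ C k) ∧
    Tendsto c atTop (𝓝 1) ∧ Tendsto d atTop (𝓝 (1 / 2)) ∧ Tendsto C atTop atTop ∧
    ∀ k, 3 ≤ k → HardX k ε (c k) (d k) (C k)

end Pool.Agent.H73.MX
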