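import Pool.Agent.H70.SDP.Blk
import Pool.Agent.H73.MX.MStmt

/-!
# Duality for linear and semidefinite constraints together (helper73, MP_c62aed_lc)
-/

namespace Pool.Agent.H73.MX

open Matrix Finset
open Pool.Agent.H1.LP (Clause viol)
open Pool.Agent.H70.SDP (pencil dual psd_fromBlocks trace_fromBlocks')

theorem pencil_blocks {s r d : ℕ} (A : Fin s → Fin d → ℝ) (b : Fin s → ℝ)
    (B0 : Matrix (Fin r) (Fin r) ℝ) (B : Fin d → Matrix (Fin r) (Fin r) ℝ) (y : Fin d → ℝ) :
    pencil (fromBlocks (diagonal b) 0 0 B0)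
      (fun k => fromBlocks (diagonal (fun i => -A i k)) 0 0 (B k)) y =
    fromBlocks (diagonal (fun i => b i - ∑ k, A i k * y k)) 0 0 (B0 + ∑ k, y k • B k) := by
  unfold pencil
  have h1 : ∑ k, y k • fromBlocks (diagonal (fun i => -A i k)) 0 0 (B k) =
      fromBlocks (diagonal (fun i => -∑ k, A i k * y k)) 0 0 (∑ k, y k • B k) := by
    ext i j
    rw [Matrix.sum_apply]
    rcases i with i | i <;> rcases j with j | j
    · simp only [Matrix.smul_apply, fromBlocks_apply₁₁, smul_eq_mul, diagonal_apply]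
      by_cases hij : i = j
      · simp only [if_pos hij, ← sum_neg_distrib]
        exact sum_congr rfl fun k _ => by ring
      · simp [if_neg hij]
    · simp
    · simp
    · simp only [Matrix.smul_apply, fromBlocks_apply₂₂, smul_eq_mul, Matrix.sum_apply]
  rw [h1, fromBlocks_add, diagonal_add]
  simp only [add_zero]
  rfl

theorem trace_mul_blocks {s r : ℕ} (L : Matrix (Fin s ⊕ Fin r) (Fin s ⊕ Fin r) ℝ) (v : Fin s → ℝ)
    (S : Matrix (Fin r) (Fin r) ℝ) :
    trace (L * fromBlocks (diagonal v) 0 0 S) =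
      ∑ i, L (Sum.inl i) (Sum.inl i) * v i + trace (L.submatrix Sum.inr Sum.inr * S) := by
  have h1 : L = fromBlocks L.toBlocks₁₁ L.toBlocks₁₂ L.toBlocks₂₁ L.toBlocks₂₂ :=
    (fromBlocks_toBlocks L).symm
  conv_lhs => rw [h1, fromBlocks_multiply, trace_fromBlocks']
  congr 1
  · rw [Matrix.mul_zero, add_zero]
    unfold Matrix.trace
    refine sum_congr rfl fun i _ => ?_
    rw [diag_apply, mul_diagonal]
    rfl
  · rw [Matrix.mul_zero, zero_add]
    rfl

/-- MDUAL -/
theorem mdual (n m : ℕ) (P : MRelax n) (phi : Fin m → Clause n) (de : ℝ)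
    (hne : P.cell.Nonempty) (h : P.Refutes phi de) (η : ℝ) (hη : 0 < η) :
    ∃ (lam : Fin P.size → ℝ) (L : Matrix (Fin P.ord) (Fin P.ord) ℝ) (lam0 : ℝ),
      (∀ i, 0 ≤ lam i) ∧ L.PosSemidef ∧ 0 ≤ lam0 ∧
      ∀ x ∈ P.cell, |∑ i, P.loss (phi i) (P.pt x) - de -
        (lam0 + ∑ i, lam i * (P.b i - ∑ k, P.A i k * P.pt x k) +
          (L * (P.B0 + ∑ k, P.pt x k • P.B k)).trace)| ≤ η := by
  classical
  obtain ⟨x0, hx0⟩ := hne
  have key : ∀ y : Fin P.dim → ℝ, ∑ i, P.loss (phi i) y - de =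
      ∑ k, (∑ i, P.w (phi i) k) * y k + (∑ i, P.w0 (phi i) - de) := by
    intro y
    unfold MRelax.loss
    rw [sum_add_distrib, sum_comm]
    simp only [sum_mul]
    ring
  have hherm : ∀ v : Fin P.size → ℝ, ∀ S : Matrix (Fin P.ord) (Fin P.ord) ℝ, S.IsSymm →
      (fromBlocks (diagonal v) 0 0 S).IsHermitian := by
    intro v S hS
    unfold Matrix.IsHermitian
    rw [fromBlocks_conjTranspose, conjTranspose_zero, conjTranspose_zero, diagonal_conjTranspose,
      conjTranspose_eq_transpose_of_trivial S, hS]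
    rfl
  have hpsd : ∀ x ∈ P.cell, (pencil (fromBlocks (diagonal P.b) 0 0 P.B0)
      (fun k => fromBlocks (diagonal (fun i => -P.A i k)) 0 0 (P.B k)) (P.pt x)).PosSemidef := by
    intro x hx
    rw [pencil_blocks]
    refine psd_fromBlocks ?_ (P.feasS x hx)
    rw [posSemidef_diagonal_iff]
    intro i
    have := P.feasL x hx i
    linarith
  obtain ⟨L, c, hL, hc, hLc⟩ := dual (X := {x // x ∈ P.cell})
    (hherm P.b P.B0 P.symm0) (fun k => hherm (fun i => -P.A i k) (P.B k) (P.symm k))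
    (fun x => P.pt x.1) (P.pt x0) (hpsd x0 hx0) (fun k => ∑ i, P.w (phi i) k)
    (∑ i, P.w0 (phi i) - de) (fun y hy => by
      rw [← key]
      rw [pencil_blocks] at hy
      have h1 : ∀ i, ∑ k, P.A i k * y k ≤ P.b i := by
        intro i
        have h2 := hy.diag_nonneg (i := Sum.inl i)
        rw [fromBlocks_apply₁₁, diagonal_apply_eq] at h2
        linarith
      have h3 : (P.B0 + ∑ k, y k • P.B k).PosSemidef := hy.submatrix Sum.inr
      have := h y h1 h3
      linarith) η hη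
  refine ⟨fun i => L (Sum.inl i) (Sum.inl i), L.submatrix Sum.inr Sum.inr, c,
    fun i => hL.diag_nonneg, hL.submatrix Sum.inr, hc, fun x hx => ?_⟩
  have h4 := hLc ⟨x, hx⟩
  rw [pencil_blocks, trace_mul_blocks, ← key] at h4
  rw [abs_sub_comm]
  refine le_trans (le_of_eq ?_) h4
  congr 1
  ring

end Pool.Agent.H73.MX
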